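import Pool.Agent.H52.GS.Es

/-!
# MP_2497bc: balanced sums of powers of 2

`Balanced q j K`: for every residue class `a` modulo `q ^ j` the `q` residue classes modulo `q ^ (j + 1)` contained in it hold equally many elements of the multiset `K`.

The theorem: for every `r ≥ 2` there are many odd `n ≤ N` which are not a prime power plus a sum of at most `r` powers of 2 with a balanced multiset of exponents (balanced at a level `j` with `q ^ j` small, or at any level if
all the exponents are congruent modulo `q ^ j`), and not a prime power plus an element of a given set `S` with at most `c log N log log N` elements.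

A multiset of two different exponents is always balanced in this sense (`q = 2`), so the case `r = 2` contains the theorem of Crocker, with the count `two_powers` stated after `result`.
-/

namespace Pool.Agent.Results.MP_2497bc_nt.BalancedSums

/-- `K` is balanced at the level `j` of `q` -/
def Balanced (q j : ℕ) (K : Multiset ℕ) : Prop :=
  ∀ a b : ℕ, a ≡ b [MOD q ^ j] → K.countP (fun k => k ≡ a [MOD q ^ (j + 1)]) = K.countP (fun k => k ≡ b [MOD q ^ (j + 1)])

theorem result (r : ℕ) (hr : 2 ≤ r) :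
    ∃ C c : ℝ, 0 < c ∧ ∃ N0 : ℕ, ∀ N : ℕ, N0 ≤ N → ∀ S : Finset ℕ,
      (S.card : ℝ) ≤ c * Real.log N * Real.log (Real.log N) →
        (N : ℝ) * Real.exp (-(C * Real.log N / Real.log (Real.log N) ^ (1 / ((r : ℝ) - 1)))) ≤
          ({n : ℕ | n ≤ N ∧ Odd n ∧
            (∀ s ∈ S, ∀ p a : ℕ, p.Prime → 1 ≤ a → n ≠ p ^ a + s) ∧
            (∀ K : Multiset ℕ, K.card ≤ r →
              (∃ q j : ℕ, q.Prime ∧ Balanced q j K ∧
                ((q : ℝ) ^ j ≤ Real.log N / (2 * Real.log (Real.log N)) ∨ ∀ a ∈ K, ∀ b ∈ K, a ≡ b [MOD q ^ j])) →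
              ∀ p a : ℕ, p.Prime → 1 ≤ a → n ≠ p ^ a + (K.map (fun k => 2 ^ k)).sum)}.ncard : ℝ) := by
  obtain ⟨C, c, hc, N0, h⟩ := H52GS.es r hr
  refine ⟨C, c, hc, N0, fun N hN S hS => (h N hN S hS).trans ?_⟩
  norm_cast
  refine Set.ncard_le_ncard ?_ ((Set.finite_Iic N).subset (fun n hn => hn.1))
  rintro n ⟨h1, h2, h3, h4⟩
  refine ⟨h1, h2, ?_, ?_⟩
  · intro s hs p a hp ha
    obtain ⟨a', rfl⟩ : ∃ a', a = a' + 1 := ⟨a - 1, by omega⟩
    exact h3 s hs p a' hp
  · intro K hK hbal p a hp ha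
    obtain ⟨a', rfl⟩ : ∃ a', a = a' + 1 := ⟨a - 1, by omega⟩
    exact h4 K hK hbal p a' hp

theorem mod_two_mul {Q x y : ℕ} (h : x % Q = y % Q) : (x ≡ y [MOD Q * 2]) ↔ x / Q % 2 = y / Q % 2 := by
  unfold Nat.ModEq
  rw [Nat.mod_mul, Nat.mod_mul, h]
  constructor
  · intro h1
    rcases Nat.eq_zero_or_pos Q with h0 | h0
    · rw [h0, Nat.div_zero, Nat.div_zero]
    · exact Nat.eq_of_mul_eq_mul_left h0 (Nat.add_left_cancel h1)
  · intro h1
    rw [h1]

/-- two different exponents are balanced for `q = 2` -/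
theorem pair_balanced (k l : ℕ) (h : k ≠ l) :
    ∃ j : ℕ, Balanced 2 j {k, l} ∧ ∀ a ∈ ({k, l} : Multiset ℕ), ∀ b ∈ ({k, l} : Multiset ℕ), a ≡ b [MOD 2 ^ j] := by
  classical
  have hex : ∃ j : ℕ, ¬ k ≡ l [MOD 2 ^ (j + 1)] := by
    refine ⟨k + l, fun hc => h ?_⟩
    have h1 : k + l < 2 ^ (k + l + 1) := by
      have h2 : k + l < 2 ^ (k + l) := Nat.lt_two_pow_self
      have h3 : 2 ^ (k + l) ≤ 2 ^ (k + l + 1) := Nat.pow_le_pow_right (by norm_num) (by omega)
      omega
    exact Nat.ModEq.eq_of_lt_of_lt hc (by omega) (by omega)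
  obtain ⟨j, hj⟩ : ∃ j, j = Nat.find hex := ⟨_, rfl⟩
  have h1 : ¬ k ≡ l [MOD 2 ^ (j + 1)] := by rw [hj]; exact Nat.find_spec hex
  have h2 : k ≡ l [MOD 2 ^ j] := by
    rcases Nat.eq_zero_or_pos j with h0 | h0
    · rw [h0, pow_zero]
      exact Nat.modEq_one
    · have h3 := Nat.find_min hex (m := j - 1) (by omega)
      rw [not_not] at h3
      have h4 : j - 1 + 1 = j := by omega
      rwa [h4] at h3
  refine ⟨j, ?_, ?_⟩
  · have hc : ∀ a : ℕ, ({k, l} : Multiset ℕ).countP (fun x => x ≡ a [MOD 2 ^ (j + 1)]) =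
        if a % 2 ^ j = k % 2 ^ j then 1 else 0 := by
      intro a
      have e : ({k, l} : Multiset ℕ) = k ::ₘ l ::ₘ 0 := rfl
      rw [e, Multiset.countP_cons, Multiset.countP_cons, Multiset.countP_zero, zero_add]
      by_cases ha : a % 2 ^ j = k % 2 ^ j
      · rw [if_pos ha]
        have hk := mod_two_mul (Q := 2 ^ j) (x := k) (y := a) ha.symm
        have hl := mod_two_mul (Q := 2 ^ j) (x := l) (y := a) ((show l % 2 ^ j = k % 2 ^ j from h2.symm).trans ha.symm)
        have hkl := mod_two_mul (Q := 2 ^ j) (x := k) (y := l) h2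
        rw [← pow_succ] at hk hl hkl
        rw [hkl] at h1
        by_cases hka : k / 2 ^ j % 2 = a / 2 ^ j % 2
        · rw [if_pos (hk.2 hka), if_neg (fun h5 => h1 (hka.trans (hl.1 h5).symm))]
        · have hla : l / 2 ^ j % 2 = a / 2 ^ j % 2 := by omega
          rw [if_neg (fun h5 => hka (hk.1 h5)), if_pos (hl.2 hla)]
      · rw [if_neg ha]
        have hd : 2 ^ j ∣ 2 ^ (j + 1) := pow_dvd_pow 2 (by omega)
        have hk : ¬ k ≡ a [MOD 2 ^ (j + 1)] := fun h5 => ha (show a % 2 ^ j = k % 2 ^ j from (h5.of_dvd hd).symm)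
        have hl : ¬ l ≡ a [MOD 2 ^ (j + 1)] := fun h5 =>
          ha (show a % 2 ^ j = k % 2 ^ j from (h5.of_dvd hd).symm.trans (h2.symm))
        rw [if_neg hk, if_neg hl]
    intro a b hab
    rw [hc, hc]
    have hab' : a % 2 ^ j = b % 2 ^ j := hab
    rw [hab']
  · intro a ha b hb
    simp only [Multiset.insert_eq_cons, Multiset.mem_cons, Multiset.mem_singleton] at ha hb
    rcases ha with rfl | rfl <;> rcases hb with rfl | rfl
    · exact Nat.ModEq.refl _
    · exact h2
    · exact h2.symm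
    · exact Nat.ModEq.refl _

/-- The number of odd `n ≤ N` which are not a prime power, nor a prime power plus one or two powers of 2. -/
theorem two_powers :
    ∃ C : ℝ, ∃ N0 : ℕ, ∀ N : ℕ, N0 ≤ N →
      (N : ℝ) * Real.exp (-(C * Real.log N / Real.log (Real.log N))) ≤
        ({n : ℕ | n ≤ N ∧ Odd n ∧ ∀ K : Multiset ℕ, K.card ≤ 2 →
          ∀ p a : ℕ, p.Prime → 1 ≤ a → n ≠ p ^ a + (K.map (fun k => 2 ^ k)).sum}.ncard : ℝ) := by
  classical
  obtain ⟨C, c, hc, N1, h⟩ := result 2 le_rfl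
  have t1 : Filter.Tendsto (fun N : ℕ => Real.log (N : ℝ)) Filter.atTop Filter.atTop := Real.tendsto_log_atTop.comp tendsto_natCast_atTop_atTop
  have t2 : Filter.Tendsto (fun N : ℕ => Real.log (Real.log (N : ℝ))) Filter.atTop Filter.atTop := Real.tendsto_log_atTop.comp t1
  obtain ⟨N2, h2⟩ := Filter.eventually_atTop.1 ((t2.eventually_ge_atTop (4 / c)).and ((t1.eventually_ge_atTop 1).and (Filter.eventually_ge_atTop 3)))
  refine ⟨C, max N1 N2, fun N hN => ?_⟩
  obtain ⟨f1, f2, f3⟩ := h2 N ((le_max_right _ _).trans hN)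
  obtain ⟨S, hS⟩ : ∃ S : Finset ℕ, S = insert 0 ((Finset.range (Nat.log 2 N + 1)).image (fun k => 2 ^ k)) := ⟨_, rfl⟩
  have hScard : (S.card : ℝ) ≤ c * Real.log N * Real.log (Real.log N) := by
    have h3 : S.card ≤ Nat.log 2 N + 1 + 1 := by
      rw [hS]
      refine (Finset.card_insert_le _ _).trans (Nat.add_le_add_right ?_ 1)
      refine Finset.card_image_le.trans ?_
      rw [Finset.card_range]
    have h4 : (S.card : ℝ) ≤ ((Nat.log 2 N : ℕ) : ℝ) + 1 + 1 := by exact_mod_cast h3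
    have h5 := H52GS.log2_le f3
    rw [div_le_iff₀ hc] at f1
    have h6 : Real.log N * 4 ≤ Real.log N * (Real.log (Real.log N) * c) := mul_le_mul_of_nonneg_left f1 (by linarith)
    linarith
  have h3 := h N ((le_max_left _ _).trans hN) S hScard
  have e1 : Real.log (Real.log (N : ℝ)) ^ (1 / (((2 : ℕ) : ℝ) - 1)) = Real.log (Real.log N) := by
    norm_num
  rw [e1] at h3
  refine h3.trans ?_
  norm_cast
  refine Set.ncard_le_ncard ?_ ((Set.finite_Iic N).subset (fun n hn => hn.1))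
  rintro n ⟨g1, g2, g3, g4⟩
  refine ⟨g1, g2, ?_⟩
  intro K hK p a hp ha hn
  have hmem : ∀ k : ℕ, 2 ^ k ≤ n → 2 ^ k ∈ S := by
    intro k hk
    rw [hS]
    refine Finset.mem_insert_of_mem (Finset.mem_image.2 ⟨k, Finset.mem_range.2 (Nat.lt_succ_of_le ?_), rfl⟩)
    exact Nat.le_log_of_pow_le (by norm_num) (hk.trans g1)
  have hc3 : K.card = 0 ∨ K.card = 1 ∨ K.card = 2 := by omega
  rcases hc3 with h0 | h0 | h0
  · rw [Multiset.card_eq_zero] at h0
    subst h0
    refine g3 0 (by rw [hS]; exact Finset.mem_insert_self _ _) p a hp ha ?_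
    simpa using hn
  · obtain ⟨k, rfl⟩ := Multiset.card_eq_one.1 h0
    have hs : (({k} : Multiset ℕ).map (fun k => 2 ^ k)).sum = 2 ^ k := by simp
    rw [hs] at hn
    exact g3 _ (hmem k (by omega)) p a hp ha hn
  · obtain ⟨k, l, rfl⟩ := Multiset.card_eq_two.1 h0
    by_cases hkl : k = l
    · subst hkl
      have hs : (({k, k} : Multiset ℕ).map (fun k => 2 ^ k)).sum = 2 ^ (k + 1) := by
        simp only [Multiset.insert_eq_cons, Multiset.map_cons, Multiset.map_singleton, Multiset.sum_cons, Multiset.sum_singleton]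
        ring
      rw [hs] at hn
      exact g3 _ (hmem (k + 1) (by omega)) p a hp ha hn
    · obtain ⟨j, hj1, hj2⟩ := pair_balanced k l hkl
      exact g4 {k, l} hK ⟨2, j, Nat.prime_two, hj1, Or.inr hj2⟩ p a hp ha hn

end Pool.Agent.Results.MP_2497bc_nt.BalancedSums
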