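import Pool.Agent.H52.GS.Sp

/-!
# MP_2497bc: a prime power plus an element of a set with at most `lam log N` elements

For every `lam > 0` and every set `S` of at most `lam log N` numbers, for instance the sums of at most `r` powers of 2 of some family with `O(log x)` members up to `x`, a positive proportion of the odd `n ≤ N` in any
residue class are not a prime power plus an element of `S`.

Two consequences are stated after `result`: `restricted` (sums of at most `r` powers of 2 whose exponents lie in `[0, w] ∪ [k, k + w]`) and `runs` (arbitrarily long runs of consecutive odd numbers none of which is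
a prime power plus a power of 2).
-/

namespace Pool.Agent.Results.MP_2497bc_nt.SparseShifts

theorem result (lam : ℝ) (hlam : 0 < lam) (q : ℕ) (hq : 1 ≤ q) :
    ∃ c : ℝ, 0 < c ∧ ∃ N0 : ℕ, ∀ N : ℕ, N0 ≤ N → ∀ b : ℕ, Odd b → ∀ S : Finset ℕ,
      (S.card : ℝ) ≤ lam * Real.log N →
        c * N ≤ ({n : ℕ | n ≤ N ∧ Odd n ∧ n ≡ b [MOD q] ∧
          ∀ s ∈ S, ∀ p a : ℕ, p.Prime → 1 ≤ a → n ≠ p ^ a + s}.ncard : ℝ) := by
  obtain ⟨c, hc, N0, h⟩ := H52GS.spA lam hlam q hq
  refine ⟨c, hc, N0, fun N hN b hb S hS => (h N hN b hb S hS).trans ?_⟩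
  norm_cast
  refine Set.ncard_le_ncard ?_ ((Set.finite_Iic N).subset (fun n hn => hn.1))
  rintro n ⟨_, h2, h3, h4, h5⟩
  refine ⟨h2, h4, h3, ?_⟩
  intro s hs p a hp ha hn
  have hpos : 0 < p ^ a := pow_pos hp.pos a
  refine h5 s hs (by omega) ?_
  have e : n - s = p ^ a := by omega
  rw [e]
  exact hp.isPrimePow.pow (by omega)

/-- For all `r` and `w` a positive proportion of the odd `n` are not a prime power plus a sum of at most `r` powers of 2 whose exponents lie in `[0, w] ∪ [k, k + w]` for some `k`. -/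
theorem restricted (r w : ℕ) :
    ∃ c : ℝ, 0 < c ∧ ∃ N0 : ℕ, ∀ N : ℕ, N0 ≤ N →
      c * N ≤ ({n : ℕ | 1 ≤ n ∧ n ≤ N ∧ Odd n ∧ ∀ (K : Multiset ℕ) (k : ℕ), K.card ≤ r →
        (∀ e ∈ K, e ≤ w ∨ (k ≤ e ∧ e ≤ k + w)) → (K.map (fun e => 2 ^ e)).sum < n →
          ¬ IsPrimePow (n - (K.map (fun e => 2 ^ e)).sum)}.ncard : ℝ) :=
  H52GS.spC r w

/-- For every `H` a positive proportion of the odd `n` are such that none of `n, n + 2, ..., n + 2 H` is a prime power plus a power of 2. -/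
theorem runs (H : ℕ) :
    ∃ c : ℝ, 0 < c ∧ ∃ N0 : ℕ, ∀ N : ℕ, N0 ≤ N →
      c * N ≤ ({n : ℕ | 1 ≤ n ∧ n ≤ N ∧ Odd n ∧ ∀ h k : ℕ, h ≤ H → 2 ^ k < n + 2 * h →
        ¬ IsPrimePow (n + 2 * h - 2 ^ k)}.ncard : ℝ) :=
  H52GS.spD H

end Pool.Agent.Results.MP_2497bc_nt.SparseShifts
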