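import Pool.Agent.H53.NM.M9

set_option autoImplicit false

/-!
Romanoff's theorem in all residue classes: for all large `r`, in every residue class that contains odd
numbers a proportion at least `c > 0` of the integers is odd and a prime plus exactly `r` powers of two,
and `c` depends neither on the class nor on `r`.
-/

namespace Pool.Agent.Results.MP_2497bc_nt.UniformRomanoff

/-- There are `r₀` and `c > 0` such that for every `r ≥ r₀` and every residue class `a` modulo `b` that
contains an odd number, for all large `X` at least `c * X / b` of the `n ≤ X` in the class are odd and of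
the form `p + 2^(k 1) + ... + 2^(k r)` with `p` a prime. -/
theorem result : ∃ (r₀ : ℕ) (c : ℝ), 0 < c ∧ ∀ r : ℕ, r₀ ≤ r → ∀ a b : ℕ, 0 < b →
    (∃ m : ℕ, Odd (a + m * b)) → ∃ X₀ : ℕ, ∀ X : ℕ, X₀ ≤ X → c * ((X : ℝ) / b) ≤
      (({n : ℕ | n ≤ X ∧ n ≡ a [MOD b] ∧ Odd n ∧
        ∃ p : ℕ, p.Prime ∧ ∃ k : Fin r → ℕ, n = p + ∑ i, 2 ^ k i}.ncard : ℕ) : ℝ) :=
  Pool.H53.NA.main_u

end Pool.Agent.Results.MP_2497bc_nt.UniformRomanoff
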